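import Pool.Agent.Q142.Coh.Ric

set_option autoImplicit false

open scoped ContDiff Manifold Topology
open Module

namespace Pool.Agent.Q142.Coh

/-- `ℝⁿ` -/
abbrev En (n : ℕ) : Type := EuclideanSpace ℝ (Fin n)

section General

variable {E F : Type*} [NormedAddCommGroup E] [NormedSpace ℝ E] [NormedAddCommGroup F]
  [NormedSpace ℝ F] {M N : Type*} [TopologicalSpace M] [TopologicalSpace N]
  [ChartedSpace E M] [ChartedSpace F N]

/-- The differential of `f` at `x`, as a map between the tangent spaces at `x` and `f x` (which in
Mathlib are the model spaces `E` and `F`, via the preferred charts at `x` and at `f x`). -/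
noncomputable def dif (f : M → N) (x : M) : E → F := fun v => mfderiv 𝓘(ℝ, E) 𝓘(ℝ, F) f x v

variable (E M) in
/-- `M` is a closed (compact without boundary) connected smooth manifold modelled on `E`. -/
def ClosedManifold : Prop :=
  CompactSpace M ∧ T2Space M ∧ ConnectedSpace M ∧ IsManifold 𝓘(ℝ, E) ∞ M

variable (F N) in
/-- `N` is a compact Lie group modelled on `F`. -/
def CompactLie [Group N] : Prop :=
  CompactSpace N ∧ T2Space N ∧ LieGroup 𝓘(ℝ, F) ∞ N

variable (E M F N) in
/-- The action of `N` on `M` is smooth. -/
def SmoothAction [SMul N M] : Prop :=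
  ContMDiff (𝓘(ℝ, F).prod 𝓘(ℝ, E)) 𝓘(ℝ, E) ∞ (fun p : N × M => p.1 • p.2)

end General

section Metric

variable {n : ℕ} {M : Type*} [TopologicalSpace M] [ChartedSpace (En n) M]

/-- The coordinate vector `∂_i` of the chart `e` at the point with coordinates `y`: the image of
the `i`-th basis vector under the differential of `e⁻¹`. -/
noncomputable def cv (e : OpenPartialHomeomorph M (En n)) (y : Fin n → ℝ) (i : Fin n) : En n :=
  dif e.symm (WithLp.toLp 2 y) (EuclideanSpace.single i (1 : ℝ))

/-- The matrix `g(∂_i, ∂_j)`, in the chart `e`, of a field `g` of bilinear forms on the tangent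
spaces. -/
noncomputable def coef (g : M → En n → En n → ℝ) (e : OpenPartialHomeomorph M (En n))
    (y : Fin n → ℝ) : Matrix (Fin n) (Fin n) ℝ :=
  Matrix.of fun i j => g (e.symm (WithLp.toLp 2 y)) (cv e y i) (cv e y j)

variable (n M) in
/-- A smooth Riemannian metric on the `n`-manifold `M`. -/
structure RMet where
  /-- the inner product on every tangent space -/
  val : M → En n → En n → ℝ
  add_left : ∀ x u v w, val x (u + v) w = val x u w + val x v w
  smul_left : ∀ x (c : ℝ) v w, val x (c • v) w = c * val x v w
  symm : ∀ x v w, val x v w = val x w v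
  pos : ∀ x v, v ≠ 0 → 0 < val x v v
  smooth : ∀ e ∈ atlas (En n) M, ∀ i j,
    ContDiffOn ℝ ∞ (fun y => coef val e y i j) {y | WithLp.toLp 2 y ∈ e.target}

/-- `Ric_g(v, v) > 0` for every nonzero tangent vector `v` (computed in the charts of the
atlas). -/
def PosRicci (g : RMet n M) : Prop :=
  ∀ e ∈ atlas (En n) M, ∀ y : Fin n → ℝ, WithLp.toLp 2 y ∈ e.target →
    ∀ v : Fin n → ℝ, v ≠ 0 → 0 < ∑ i, ∑ j, Ric (coef g.val e) y i j * v i * v j

/-- The group `G` acts by isometries of `g`. -/
def Invariant (G : Type*) [Group G] [MulAction G M] (g : RMet n M) : Prop :=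
  ∀ (a : G) (x : M) (v w : En n),
    g.val (a • x) (dif (fun z : M => a • z) x v) (dif (fun z : M => a • z) x w) = g.val x v w

end Metric

section Action

variable {d n : ℕ} (G : Type*) [Group G] {M : Type*} [MulAction G M]

/-- The points whose isotropy group is conjugate to the isotropy group of `x`. -/
def sameType (x : M) : Set M :=
  {y : M | ∃ a : G, MulAction.stabilizer G y = MulAction.stabilizer G (a • x)}

/-- `x` lies on a principal orbit: the points whose isotropy group is conjugate to the isotropy
group of `x` form an open dense set. -/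
def IsPrincipal [TopologicalSpace M] (x : M) : Prop :=
  IsOpen (sameType G x) ∧ Dense (sameType G x)

variable [TopologicalSpace G] [ChartedSpace (En d) G] [TopologicalSpace M] [ChartedSpace (En n) M]

variable (d n) in
/-- The dimension of the orbit of `x`: the dimension of the image of the differential at `1` of the
orbit map `a ↦ a • x`. -/
noncomputable def orbitDim (x : M) : ℕ :=
  Set.finrank ℝ (Set.range (dif (E := En d) (F := En n) (fun a : G => a • x) 1))

variable (d n) in
/-- `x` lies on a singular orbit: its orbit has smaller dimension than a principal orbit. -/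
def IsSingular (x : M) : Prop :=
  ∃ p : M, IsPrincipal G p ∧ orbitDim d n G x < orbitDim d n G p

variable (d n M) in
/-- There is exactly one singular orbit. -/
def OneSingularOrbit : Prop := ∃ x₀ : M, ∀ x : M, IsSingular d n G x ↔ x ∈ MulAction.orbit G x₀

variable (M) in
/-- There are only finitely many non-principal orbits. -/
def FiniteNonPrincipal : Prop :=
  {O : Set M | ∃ x : M, ¬ IsPrincipal G x ∧ O = MulAction.orbit G x}.Finite

variable (d n M) in
/-- The cohomogeneity is `c`: principal orbits exist and have codimension `c`. -/
def Cohomogeneity (c : ℕ) : Prop := ∃ p : M, IsPrincipal G p ∧ orbitDim d n G p + c = n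

end Action

/-- `M` is a `G`-manifold with a single singular orbit, of cohomogeneity `c`:
`G` is a compact Lie group of dimension `d`, `M` a closed connected smooth manifold of dimension
`n`, the action is smooth, `M` has exactly one singular orbit and only finitely many non-principal
orbits, and principal orbits exist and have codimension `c`. -/
def SingleSingular (d n c : ℕ) (G M : Type) [Group G] [TopologicalSpace G]
    [ChartedSpace (En d) G] [TopologicalSpace M] [ChartedSpace (En n) M] [MulAction G M] : Prop :=
  CompactLie (En d) G ∧ ClosedManifold (En n) M ∧ SmoothAction (En n) (En d) M G ∧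
    OneSingularOrbit d n G M ∧ FiniteNonPrincipal G M ∧ Cohomogeneity d n G M c

end Pool.Agent.Q142.Coh
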