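import Pool.Agent.Q142.Coh.Quat

set_option autoImplicit false

open scoped ContDiff Manifold Topology RealInnerProductSpace Quaternion
open Module Metric

namespace Pool.Agent.Q142.Coh

/-- the coordinate functionals on `Im ℍ ⊕ ℍ^k` -/
noncomputable def cl (k : ℕ) (i : Fin (k + 1)) : VQ k →L[ℝ] ℍ :=
  (PiLp.proj 2 (𝕜 := ℝ) (fun _ : Fin (k + 1) => ℍ) i).comp (VQ k).subtypeL

theorem cl_apply (k : ℕ) (i : Fin (k + 1)) (x : VQ k) : cl k i x = (x : EQ k) i := rfl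

theorem co_eq {k : ℕ} (x : MQ k) (i : Fin (k + 1)) : co x i = cl k i (x : VQ k) := rfl

/-- the orbit map -/
noncomputable def om {k : ℕ} (x : MQ k) (a : GQ) : MQ k := a • x

theorem mdiff_om {k : ℕ} (x : MQ k) : MDifferentiableAt (𝓡 3) (𝓡 (4 * k + 2)) (om x) 1 := by
  have h1 : ContMDiff (𝓡 3) ((𝓡 3).prod (𝓡 (4 * k + 2))) ∞ (fun a : GQ => (a, x)) :=
    contMDiff_id.prodMk contMDiff_const
  have h2 := (smooth_action k).comp h1
  have h3 : ContMDiff (𝓡 3) (𝓡 (4 * k + 2)) ∞ (om x) := h2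
  exact (h3 1).mdifferentiableAt (by simp)

theorem mdiff_smul {k : ℕ} (a : GQ) (x : MQ k) :
    MDifferentiableAt (𝓡 (4 * k + 2)) (𝓡 (4 * k + 2)) (fun z : MQ k => a • z) x := by
  have h1 : ContMDiff (𝓡 (4 * k + 2)) ((𝓡 3).prod (𝓡 (4 * k + 2))) ∞
      (fun z : MQ k => (a, z)) :=
    contMDiff_const.prodMk contMDiff_id
  have h2 := (smooth_action k).comp h1
  have h3 : ContMDiff (𝓡 (4 * k + 2)) (𝓡 (4 * k + 2)) ∞ (fun z : MQ k => a • z) := h2
  exact (h3 x).mdifferentiableAt (by simp)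

theorem cl_dinc_om {k : ℕ} (x : MQ k) (i : Fin (k + 1)) (φ : ℍ → ℍ) (φ' : ℍ →L[ℝ] ℍ)
    (h1 : ∀ a : GQ, co (a • x) i = φ (a : ℍ)) (h2 : HasFDerivAt φ φ' 1)
    (t : TangentSpace (𝓡 3) (1 : GQ)) :
    cl k i (dinc (om x 1) (mfderiv (𝓡 3) (𝓡 (4 * k + 2)) (om x) 1 t)) = φ' (dinc 1 t) := by
  have e1 := (hasMFDerivAt_inc (n := 4 * k + 2) (om x 1)).comp (1 : GQ) (mdiff_om x).hasMFDerivAt
  have e2 := ((cl k i).hasMFDerivAt (x := ((om x 1 : MQ k) : VQ k))).comp (1 : GQ) e1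
  have e3 : HasMFDerivAt 𝓘(ℝ, ℍ) 𝓘(ℝ, ℍ) φ ((1 : GQ) : ℍ) φ' := by
    have : ((1 : GQ) : ℍ) = 1 := rfl
    rw [this]; exact h2.hasMFDerivAt
  have e4 := e3.comp (1 : GQ) (hasMFDerivAt_inc (n := 3) (1 : GQ))
  have e5 : (⇑(cl k i) ∘ ((↑) : MQ k → VQ k) ∘ om x) = φ ∘ ((↑) : GQ → ℍ) := by
    funext a; exact h1 a
  rw [e5] at e2
  have e6 := hasMFDerivAt_unique e2 e4
  exact congrArg (fun L : TangentSpace (𝓡 3) (1 : GQ) →L[ℝ] ℍ => L t) e6

theorem hasFDerivAt_conj (u : ℍ) :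
    HasFDerivAt (fun a : ℍ => a * u * star a)
      ((ContinuousLinearMap.mul ℝ ℍ).flip u + (ContinuousLinearMap.mul ℝ ℍ u).comp starC) 1 := by
  have h1 : HasFDerivAt (fun a : ℍ => a * u) ((ContinuousLinearMap.mul ℝ ℍ).flip u) 1 :=
    ((ContinuousLinearMap.mul ℝ ℍ).flip u).hasFDerivAt
  have h2 : HasFDerivAt (fun a : ℍ => star a) starC 1 := starC.hasFDerivAt
  have h3 := h1.mul' h2
  refine h3.congr_fderiv ?_
  ext h : 1
  simp only [add_apply, smul_apply, ContinuousLinearMap.comp_apply,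
    ContinuousLinearMap.mul_apply', ContinuousLinearMap.flip_apply, one_mul, star_one]
  rw [add_comm]
  simp [MulOpposite.op_one]

theorem hasFDerivAt_mulr (u : ℍ) :
    HasFDerivAt (fun a : ℍ => a * u) ((ContinuousLinearMap.mul ℝ ℍ).flip u) 1 :=
  ((ContinuousLinearMap.mul ℝ ℍ).flip u).hasFDerivAt

/-- the points outside the singular orbit -/
def Reg {k : ℕ} (x : MQ k) : Prop := ∃ i, i ≠ 0 ∧ co x i ≠ 0

theorem orbitDim_eq {k : ℕ} (x : MQ k) : orbitDim 3 (4 * k + 2) GQ x =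
    finrank ℝ (LinearMap.range (mfderiv (𝓡 3) (𝓡 (4 * k + 2)) (om x) 1).toLinearMap) := by
  unfold orbitDim Set.finrank
  have h : Submodule.span ℝ (Set.range (dif (E := En 3) (F := En (4 * k + 2))
      (fun a : GQ => a • x) 1)) =
      LinearMap.range (mfderiv (𝓡 3) (𝓡 (4 * k + 2)) (om x) 1).toLinearMap :=
    Submodule.span_eq (LinearMap.range (mfderiv (𝓡 3) (𝓡 (4 * k + 2)) (om x) 1).toLinearMap)
  rw [h]
  rfl

theorem orbitDim_reg {k : ℕ} (x : MQ k) (hx : Reg x) : orbitDim 3 (4 * k + 2) GQ x = 3 := by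
  obtain ⟨i, hi, hxi⟩ := hx
  rw [orbitDim_eq]
  have hinj : Function.Injective (mfderiv (𝓡 3) (𝓡 (4 * k + 2)) (om x) 1) := by
    rw [injective_iff_map_eq_zero]
    intro t ht
    have h1 := cl_dinc_om x i (fun a => a * co x i) _ (fun a => co_smul_ne a x i hi)
      (hasFDerivAt_mulr _) t
    rw [ht, map_zero, map_zero] at h1
    have h2 : dinc (1 : GQ) t * co x i = 0 := h1.symm
    have h3 : dinc (1 : GQ) t = 0 := by
      rcases mul_eq_zero.1 h2 with h | h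
      · exact h
      · exact absurd h hxi
    apply dinc_inj (1 : GQ)
    rw [h3, map_zero]
  have h4 := LinearMap.finrank_range_of_inj
    (f := (mfderiv (𝓡 3) (𝓡 (4 * k + 2)) (om x) 1).toLinearMap) hinj
  have h5 : finrank ℝ (TangentSpace (𝓡 3) (1 : GQ)) = 3 := by
    change finrank ℝ (EuclideanSpace ℝ (Fin 3)) = 3
    simp
  exact h4.trans h5

theorem orbitDim_sing {k : ℕ} (x : MQ k) (hx : ¬ Reg x) :
    orbitDim 3 (4 * k + 2) GQ x < 3 := by
  have hx0 : ∀ i, i ≠ 0 → co x i = 0 := by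
    intro i hi
    by_contra h
    exact hx ⟨i, hi, h⟩
  have hu : co x 0 ≠ 0 := by
    intro h
    have h1 : x = (x : MQ k) := rfl
    have h2 : (x : VQ k) = 0 := by
      refine ext_VQ fun i => ?_
      by_cases hi : i = 0
      · subst hi; exact h
      · exact hx0 i hi
    have h3 := norm_eq_of_mem_sphere x
    rw [h2, norm_zero] at h3
    exact zero_ne_one h3
  have hre := re_co_zero x
  have hstar : star (co x 0) = - co x 0 := by
    ext <;> simp [hre]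
  obtain ⟨t, ht⟩ : ∃ t, dinc (1 : GQ) t = co x 0 := by
    have h1 := range_mvfderiv_subtypeVal (n := 3) (1 : GQ)
    have h2 : co x 0 ∈ (ℝ ∙ ((1 : GQ) : ℍ))ᗮ := by
      rw [Submodule.mem_orthogonal_singleton_iff_inner_right]
      have : ((1 : GQ) : ℍ) = 1 := rfl
      rw [this, Quaternion.inner_def, one_mul, Quaternion.re_star, hre]
    rw [← h1] at h2
    exact h2
  have h6 : mfderiv (𝓡 3) (𝓡 (4 * k + 2)) (om x) 1 t = 0 := by
    apply dinc_inj (om x 1)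
    rw [map_zero]
    refine ext_VQ fun i => ?_
    rw [← cl_apply]
    by_cases hi : i = 0
    · subst hi
      rw [cl_dinc_om x 0 (fun a => a * co x 0 * star a) _ (fun a => co_smul_zero a x)
        (hasFDerivAt_conj _) t, ht]
      simp only [add_apply, ContinuousLinearMap.comp_apply,
        ContinuousLinearMap.mul_apply', ContinuousLinearMap.flip_apply, starC_apply, hstar]
      simp
    · rw [cl_dinc_om x i (fun a => a * co x i) _ (fun a => co_smul_ne a x i hi)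
        (hasFDerivAt_mulr _) t, hx0 i hi]
      simp
  have ht0 : t ≠ 0 := by
    intro h
    rw [h, map_zero] at ht
    exact hu ht.symm
  rw [orbitDim_eq]
  have hfd : FiniteDimensional ℝ (TangentSpace (𝓡 3) (1 : GQ)) :=
    inferInstanceAs (FiniteDimensional ℝ (EuclideanSpace ℝ (Fin 3)))
  have h7 := LinearMap.finrank_range_add_finrank_ker
    (mfderiv (𝓡 3) (𝓡 (4 * k + 2)) (om x) 1).toLinearMap
  have h5 : finrank ℝ (TangentSpace (𝓡 3) (1 : GQ)) = 3 := by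
    change finrank ℝ (EuclideanSpace ℝ (Fin 3)) = 3
    simp
  rw [h5] at h7
  have h8 : 0 < finrank ℝ
      (LinearMap.ker (mfderiv (𝓡 3) (𝓡 (4 * k + 2)) (om x) 1).toLinearMap) := by
    rw [Module.finrank_pos_iff_exists_ne_zero]
    exact ⟨⟨t, h6⟩, fun h => ht0 (congrArg Subtype.val h)⟩
  change finrank ℝ (LinearMap.range
    (mfderiv (𝓡 3) (𝓡 (4 * k + 2)) (om x) 1).toLinearMap) < 3
  omega

end Pool.Agent.Q142.Coh
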