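import Pool.Agent.Q142.Coh.Sph

set_option autoImplicit false

open scoped ContDiff Manifold Topology RealInnerProductSpace Quaternion
open Module Metric

namespace Pool.Agent.Q142.Coh

/-- the Euclidean space `ℍ ⊕ ℍ^k` -/
abbrev EQ (k : ℕ) := PiLp 2 (fun _ : Fin (k + 1) => ℍ)

/-- the subspace `Im ℍ ⊕ ℍ^k` -/
def VQ (k : ℕ) : Submodule ℝ (EQ k) where
  carrier := {x | (x 0).re = 0}
  add_mem' := by
    intro a b ha hb
    simp only [Set.mem_ofPred_eq, PiLp.add_apply, Quaternion.re_add] at *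
    rw [ha, hb, add_zero]
  zero_mem' := by simp
  smul_mem' := by
    intro c x hx
    simp only [Set.mem_ofPred_eq, PiLp.smul_apply, Quaternion.re_smul] at *
    rw [hx, smul_zero]

theorem mem_VQ {k : ℕ} (x : EQ k) : x ∈ VQ k ↔ (x 0).re = 0 := Iff.rfl

instance factQ : Fact (finrank ℝ ℍ = 3 + 1) := ⟨Quaternion.finrank_eq_four⟩

theorem finrank_EQ (k : ℕ) : finrank ℝ (EQ k) = 4 * (k + 1) := by
  rw [(WithLp.linearEquiv 2 ℝ (Fin (k + 1) → ℍ)).finrank_eq, Module.finrank_pi_fintype]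
  simp [Quaternion.finrank_eq_four, mul_comm]

/-- the functional `x ↦ re x₀` -/
def reFun (k : ℕ) : EQ k →ₗ[ℝ] ℝ where
  toFun x := (x 0).re
  map_add' := by intro x y; simp
  map_smul' := by intro c x; simp

theorem finrank_VQ (k : ℕ) : finrank ℝ (VQ k) = 4 * k + 3 := by
  have h1 : VQ k = LinearMap.ker (reFun k) := by
    ext x; rw [mem_VQ, LinearMap.mem_ker]; rfl
  have h2 := LinearMap.finrank_range_add_finrank_ker (reFun k)
  have h3 : LinearMap.range (reFun k) = ⊤ := by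
    rw [LinearMap.range_eq_top]
    intro c
    refine ⟨WithLp.toLp 2 (fun _ => (c : ℍ)), ?_⟩
    exact Quaternion.re_coe c
  rw [h3, finrank_top, finrank_EQ, finrank_self, ← h1] at h2
  omega

instance factV (k : ℕ) : Fact (finrank ℝ (VQ k) = (4 * k + 2) + 1) := ⟨finrank_VQ k⟩

/-- the group of unit quaternions -/
abbrev GQ := sphere (0 : ℍ) 1

/-- the unit sphere of `Im ℍ ⊕ ℍ^k` -/
abbrev MQ (k : ℕ) := sphere (0 : VQ k) 1

/-- `(u, v) ↦ (a u a*, a v)` -/
noncomputable def actE {k : ℕ} (a : ℍ) (x : EQ k) : EQ k :=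
  WithLp.toLp 2 fun i => if i = 0 then a * x i * star a else a * x i

theorem actE_zero {k : ℕ} (a : ℍ) (x : EQ k) : actE a x 0 = a * x 0 * star a := by
  simp [actE]

theorem actE_ne {k : ℕ} (a : ℍ) (x : EQ k) (i : Fin (k + 1)) (hi : i ≠ 0) :
    actE a x i = a * x i := by
  simp [actE, hi]

theorem re_conj (a u : ℍ) (hu : u.re = 0) : (a * u * star a).re = 0 := by
  simp only [Quaternion.re_mul, Quaternion.imI_mul, Quaternion.imJ_mul, Quaternion.imK_mul,
    Quaternion.re_star, Quaternion.imI_star, Quaternion.imJ_star, Quaternion.imK_star, hu]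
  ring

theorem actE_mem {k : ℕ} (a : ℍ) (x : EQ k) (hx : x ∈ VQ k) : actE a x ∈ VQ k := by
  rw [mem_VQ, actE_zero]
  exact re_conj a _ hx

theorem norm_actE {k : ℕ} (a : ℍ) (ha : ‖a‖ = 1) (x : EQ k) : ‖actE a x‖ = ‖x‖ := by
  rw [PiLp.norm_eq_of_L2, PiLp.norm_eq_of_L2]
  congr 1
  refine Finset.sum_congr rfl fun i _ => ?_
  by_cases hi : i = 0
  · subst hi
    rw [actE_zero, norm_mul, norm_mul, norm_star, ha, one_mul, mul_one]
  · rw [actE_ne a x i hi, norm_mul, ha, one_mul]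

theorem ext_VQ {k : ℕ} {x y : VQ k} (h : ∀ i, (x : EQ k) i = (y : EQ k) i) : x = y :=
  Subtype.ext (PiLp.ext h)

/-- the linear isometry of `Im ℍ ⊕ ℍ^k` defined by a unit quaternion -/
noncomputable def actV (k : ℕ) (a : GQ) : VQ k →ₗᵢ[ℝ] VQ k where
  toFun x := ⟨actE (a : ℍ) (x : EQ k), actE_mem _ _ x.2⟩
  map_add' := by
    intro x y
    refine ext_VQ fun i => ?_
    change actE (a : ℍ) ((x : EQ k) + (y : EQ k)) i = actE (a : ℍ) (x : EQ k) i +
      actE (a : ℍ) (y : EQ k) i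
    by_cases hi : i = 0
    · subst hi; simp only [actE_zero, PiLp.add_apply, mul_add, add_mul]
    · simp only [actE_ne _ _ i hi, PiLp.add_apply, mul_add]
  map_smul' := by
    intro c x
    refine ext_VQ fun i => ?_
    change actE (a : ℍ) (c • (x : EQ k)) i = c • actE (a : ℍ) (x : EQ k) i
    by_cases hi : i = 0
    · subst hi
      simp only [actE_zero, PiLp.smul_apply, Algebra.mul_smul_comm, Algebra.smul_mul_assoc]
    · simp only [actE_ne _ _ i hi, PiLp.smul_apply, Algebra.mul_smul_comm]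
  norm_map' := by
    intro x
    exact norm_actE _ (by simp) _

theorem actV_coe (k : ℕ) (a : GQ) (x : VQ k) : ((actV k a x : VQ k) : EQ k) = actE (a : ℍ) x :=
  rfl

theorem norm_GQ (a : GQ) : ‖(a : ℍ)‖ = 1 := by simp

theorem GQ_mul_star (a : GQ) : (a : ℍ) * star (a : ℍ) = 1 := by
  rw [Quaternion.self_mul_star, Quaternion.normSq_eq_norm_mul_self, norm_GQ]
  simp

theorem GQ_star_mul (a : GQ) : star (a : ℍ) * (a : ℍ) = 1 := by
  rw [Quaternion.star_mul_self, Quaternion.normSq_eq_norm_mul_self, norm_GQ]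
  simp

noncomputable instance actionQ (k : ℕ) : MulAction GQ (MQ k) where
  smul a x := ⟨actV k a (x : VQ k), by
    rw [mem_sphere_zero_iff_norm, LinearIsometry.norm_map]; exact norm_eq_of_mem_sphere x⟩
  one_smul := by
    intro x
    refine Subtype.ext (ext_VQ fun i => ?_)
    change actE ((1 : GQ) : ℍ) ((x : VQ k) : EQ k) i = ((x : VQ k) : EQ k) i
    have h1 : ((1 : GQ) : ℍ) = 1 := rfl
    rw [h1]
    by_cases hi : i = 0
    · subst hi; simp [actE_zero]
    · simp [actE_ne _ _ i hi]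
  mul_smul := by
    intro a b x
    refine Subtype.ext (ext_VQ fun i => ?_)
    change actE ((a * b : GQ) : ℍ) ((x : VQ k) : EQ k) i =
      actE (a : ℍ) (actE (b : ℍ) ((x : VQ k) : EQ k)) i
    have h1 : ((a * b : GQ) : ℍ) = (a : ℍ) * (b : ℍ) := rfl
    rw [h1]
    by_cases hi : i = 0
    · subst hi; simp only [actE_zero, star_mul, mul_assoc]
    · simp only [actE_ne _ _ i hi, mul_assoc]

theorem smul_coe {k : ℕ} (a : GQ) (x : MQ k) : ((a • x : MQ k) : VQ k) = actV k a (x : VQ k) :=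
  rfl

/-- coordinates of a point of the sphere -/
def co {k : ℕ} (x : MQ k) (i : Fin (k + 1)) : ℍ := ((x : VQ k) : EQ k) i

theorem co_smul_zero {k : ℕ} (a : GQ) (x : MQ k) :
    co (a • x) 0 = (a : ℍ) * co x 0 * star (a : ℍ) :=
  actE_zero _ _

theorem co_smul_ne {k : ℕ} (a : GQ) (x : MQ k) (i : Fin (k + 1)) (hi : i ≠ 0) :
    co (a • x) i = (a : ℍ) * co x i :=
  actE_ne _ _ i hi

theorem ext_co {k : ℕ} {x y : MQ k} (h : ∀ i, co x i = co y i) : x = y :=
  Subtype.ext (ext_VQ h)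

theorem re_co_zero {k : ℕ} (x : MQ k) : (co x 0).re = 0 := (x : VQ k).2

/-- conjugation as a continuous linear map -/
noncomputable def starC : ℍ →L[ℝ] ℍ :=
  LinearMap.toContinuousLinearMap
    { toFun := fun a => star a
      map_add' := fun a b => star_add a b
      map_smul' := fun c a => by
        ext <;> simp }

theorem starC_apply (a : ℍ) : starC a = star a := rfl

/-- smoothness of the action on the ambient space -/
theorem contDiff_actE (k : ℕ) : ContDiff ℝ ∞ (fun p : ℍ × EQ k => actE p.1 p.2) := by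
  rw [contDiff_piLp]
  intro i
  have hs : ContDiff ℝ ∞ (fun a : ℍ => star a) := starC.contDiff
  have hc : ContDiff ℝ ∞ (fun p : ℍ × EQ k => p.2 i) :=
    (PiLp.proj 2 (𝕜 := ℝ) (fun _ : Fin (k + 1) => ℍ) i).contDiff.comp contDiff_snd
  by_cases hi : i = 0
  · subst hi
    simp only [actE_zero]
    exact (contDiff_fst.mul hc).mul (hs.comp contDiff_fst)
  · simp only [actE_ne _ _ i hi]
    exact contDiff_fst.mul hc

/-- orthogonal projection to `Im ℍ ⊕ ℍ^k` -/
noncomputable def prV (k : ℕ) : EQ k →L[ℝ] VQ k := (VQ k).orthogonalProjectionOnto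

theorem prV_coe {k : ℕ} (x : VQ k) : prV k (x : EQ k) = x :=
  Submodule.orthogonalProjectionOnto_mem_subspace_eq_self x

theorem contMDiff_fst_coe (k : ℕ) :
    ContMDiff ((𝓡 3).prod (𝓡 (4 * k + 2))) 𝓘(ℝ, ℍ × EQ k) ∞
      (fun p : GQ × MQ k => ((p.1 : ℍ), ((p.2 : VQ k) : EQ k))) := by
  refine ContMDiff.prodMk_space ?_ ?_
  · exact contMDiff_coe_sphere.comp contMDiff_fst
  · have h1 : ContMDiff 𝓘(ℝ, VQ k) 𝓘(ℝ, EQ k) ∞ (fun x : VQ k => (x : EQ k)) :=
      (VQ k).subtypeL.contDiff.contMDiff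
    exact h1.comp (contMDiff_coe_sphere.comp contMDiff_snd)

theorem smooth_action (k : ℕ) :
    ContMDiff ((𝓡 3).prod (𝓡 (4 * k + 2))) (𝓡 (4 * k + 2)) ∞
      (fun p : GQ × MQ k => p.1 • p.2) := by
  have h1 : ContMDiff ((𝓡 3).prod (𝓡 (4 * k + 2))) 𝓘(ℝ, VQ k) ∞
      (fun p : GQ × MQ k => prV k (actE (p.1 : ℍ) ((p.2 : VQ k) : EQ k))) := by
    have h2 : ContDiff ℝ ∞ (fun p : ℍ × EQ k => prV k (actE p.1 p.2)) :=
      (prV k).contDiff.comp (contDiff_actE k)
    have h7 := h2.comp_contMDiff (contMDiff_fst_coe k)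
    exact h7
  have h3 : ∀ p : GQ × MQ k, prV k (actE (p.1 : ℍ) ((p.2 : VQ k) : EQ k)) =
      ((p.1 • p.2 : MQ k) : VQ k) := fun p => by
    rw [smul_coe, ← prV_coe (actV k p.1 (p.2 : VQ k)), actV_coe]
  have h4 : ∀ p : GQ × MQ k, prV k (actE (p.1 : ℍ) ((p.2 : VQ k) : EQ k)) ∈
      sphere (0 : VQ k) 1 := fun p => by
    rw [h3]; exact (p.1 • p.2 : MQ k).2
  have h5 := h1.codRestrict_sphere (n := 4 * k + 2) h4
  have h6 : (fun p : GQ × MQ k => p.1 • p.2) = Set.codRestrict _ _ h4 := by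
    funext p
    exact Subtype.ext (h3 p).symm
  rw [h6]
  exact h5

instance lieGQ : LieGroup (𝓡 3) ∞ GQ where
  contMDiff_mul := by
    apply ContMDiff.codRestrict_sphere
    have h1 : ContMDiff ((𝓡 3).prod (𝓡 3)) 𝓘(ℝ, ℍ × ℍ) ∞
        (fun p : GQ × GQ => ((p.1 : ℍ), (p.2 : ℍ))) :=
      ContMDiff.prodMk_space (contMDiff_coe_sphere.comp contMDiff_fst)
        (contMDiff_coe_sphere.comp contMDiff_snd)
    have h2 : ContDiff ℝ ∞ (fun p : ℍ × ℍ => p.1 * p.2) := contDiff_fst.mul contDiff_snd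
    exact h2.contMDiff.comp h1
  contMDiff_inv := by
    apply ContMDiff.codRestrict_sphere
    have h1 : ∀ a : GQ, (a : ℍ)⁻¹ = starC (a : ℍ) := by
      intro a
      rw [starC_apply]
      exact inv_eq_of_mul_eq_one_right (GQ_mul_star a)
    simp only [h1]
    exact starC.contDiff.contMDiff.comp contMDiff_coe_sphere

end Pool.Agent.Q142.Coh
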