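import Mathlib

set_option autoImplicit false

open scoped ContDiff Topology Matrix

namespace Pool.Agent.Q142.Coh

/-- partial derivative in the `i`-th coordinate -/
noncomputable def pd {n : ℕ} (i : Fin n) (f : (Fin n → ℝ) → ℝ) (x : Fin n → ℝ) : ℝ :=
  fderiv ℝ f x (Pi.single i 1)

/-- Christoffel symbols `Γ^k_{ij}` of a field `G` of symmetric matrices (a metric in coordinates) -/
noncomputable def Gam {n : ℕ} (G : (Fin n → ℝ) → Matrix (Fin n) (Fin n) ℝ) (k i j : Fin n)
    (x : Fin n → ℝ) : ℝ :=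
  (1 / 2) * ∑ l, (G x)⁻¹ k l *
    (pd i (fun y => G y j l) x + pd j (fun y => G y i l) x - pd l (fun y => G y i j) x)

/-- Ricci tensor
`R_{ij} = ∂_k Γ^k_{ij} - ∂_j Γ^k_{ik} + Γ^k_{kl} Γ^l_{ij} - Γ^k_{jl} Γ^l_{ik}` -/
noncomputable def Ric {n : ℕ} (G : (Fin n → ℝ) → Matrix (Fin n) (Fin n) ℝ) (x : Fin n → ℝ) :
    Matrix (Fin n) (Fin n) ℝ := Matrix.of fun i j =>
  ∑ k, pd k (Gam G k i j) x - ∑ k, pd j (Gam G k i k) x +
    ∑ k, ∑ l, (Gam G k k l x * Gam G l i j x - Gam G k j l x * Gam G l i k x)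

/-! ### The metric `16 |dy|² / (|y|² + 4)²` -/

/-- `|y|² + 4` -/
def S {n : ℕ} (y : Fin n → ℝ) : ℝ := ∑ i, y i ^ 2 + 4

theorem S_pos {n : ℕ} (y : Fin n → ℝ) : 0 < S y := by
  unfold S; positivity

/-- the round metric in stereographic coordinates -/
noncomputable def rnd {n : ℕ} (y : Fin n → ℝ) : Matrix (Fin n) (Fin n) ℝ :=
  (16 / S y ^ 2) • (1 : Matrix (Fin n) (Fin n) ℝ)

theorem hasFDerivAt_coord {n : ℕ} (i : Fin n) (x : Fin n → ℝ) :
    HasFDerivAt (fun y : Fin n → ℝ => y i) (ContinuousLinearMap.proj (R := ℝ) i) x :=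
  hasFDerivAt_apply i x

theorem hasFDerivAt_S {n : ℕ} (x : Fin n → ℝ) :
    HasFDerivAt (S (n := n)) (∑ i, (2 * x i) • (ContinuousLinearMap.proj (R := ℝ) i :
      (Fin n → ℝ) →L[ℝ] ℝ)) x := by
  unfold S
  have h : HasFDerivAt (fun y : Fin n → ℝ => ∑ i, y i ^ 2)
      (∑ i, (2 * x i) • (ContinuousLinearMap.proj (R := ℝ) i : (Fin n → ℝ) →L[ℝ] ℝ)) x := by
    refine HasFDerivAt.fun_sum fun i _ => ?_
    have := (hasFDerivAt_coord i x).pow 2
    simpa using this
  exact h.add_const 4

theorem pd_S {n : ℕ} (i : Fin n) (x : Fin n → ℝ) : pd i (S (n := n)) x = 2 * x i := by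
  unfold pd
  rw [(hasFDerivAt_S x).fderiv]
  simp [Pi.single_apply]

theorem diff_S {n : ℕ} (x : Fin n → ℝ) : DifferentiableAt ℝ (S (n := n)) x :=
  (hasFDerivAt_S x).differentiableAt

/-- `∂_i` of the conformal factor -/
theorem pd_fac {n : ℕ} (i : Fin n) (c : ℝ) (x : Fin n → ℝ) :
    pd i (fun y => c / S y ^ 2) x = -(4 * c * x i) / S x ^ 3 := by
  have h0 : S x ^ 2 ≠ 0 := (pow_pos (S_pos x) 2).ne'
  have h1 : HasFDerivAt (fun y => c / S y ^ 2)
      ((-(2 * S x * c) / (S x ^ 2) ^ 2) • (∑ i, (2 * x i) • (ContinuousLinearMap.proj (R := ℝ) i :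
      (Fin n → ℝ) →L[ℝ] ℝ))) x := by
    have h2 : HasDerivAt (fun s : ℝ => c / s ^ 2) (-(2 * S x * c) / (S x ^ 2) ^ 2) (S x) := by
      have := (hasDerivAt_const (S x) c).div ((hasDerivAt_id (S x)).pow 2) h0
      refine this.congr_deriv ?_
      simp
      ring
    exact h2.comp_hasFDerivAt x (hasFDerivAt_S x)
  unfold pd
  rw [h1.fderiv]
  simp only [smul_apply, sum_apply,
    ContinuousLinearMap.proj_apply, Pi.single_apply, smul_eq_mul, mul_ite, mul_one, mul_zero,
    Finset.sum_ite_eq', Finset.mem_univ, if_true]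
  have := (S_pos x).ne'
  field_simp
  ring

/-- the logarithmic derivative of the square root of the conformal factor -/
noncomputable def psi {n : ℕ} (i : Fin n) (x : Fin n → ℝ) : ℝ := -(2 * x i) / S x

theorem pd_psi {n : ℕ} (i j : Fin n) (x : Fin n → ℝ) :
    pd j (psi i) x = -(2 * if i = j then 1 else 0) / S x + psi i x * psi j x := by
  have h0 : S x ≠ 0 := (S_pos x).ne'
  have h2 : HasFDerivAt (fun y : Fin n → ℝ => -(2 * y i))
      (-(2:ℝ) • (ContinuousLinearMap.proj (R := ℝ) i : (Fin n → ℝ) →L[ℝ] ℝ)) x := by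
    have := ((hasFDerivAt_coord i x).const_mul (-2 : ℝ))
    refine this.congr_of_eventuallyEq (Filter.Eventually.of_forall fun y => ?_)
    simp
  have h3 : HasFDerivAt (fun y : Fin n → ℝ => (S y)⁻¹) ((-(S x ^ 2)⁻¹) • (∑ i, (2 * x i) •
      (ContinuousLinearMap.proj (R := ℝ) i : (Fin n → ℝ) →L[ℝ] ℝ))) x :=
    (hasDerivAt_inv h0).comp_hasFDerivAt x (hasFDerivAt_S x)
  have h1 := h2.mul h3
  have h4 : psi i = fun y : Fin n → ℝ => -(2 * y i) * (S y)⁻¹ := by
    funext y; rw [psi, div_eq_mul_inv]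
  unfold pd
  have h6 : HasFDerivAt (psi i) (-(2 * x i) • -(S x ^ 2)⁻¹ • ∑ i, (2 * x i) •
      (ContinuousLinearMap.proj (R := ℝ) i : (Fin n → ℝ) →L[ℝ] ℝ) +
      (S x)⁻¹ • -(2:ℝ) • (ContinuousLinearMap.proj (R := ℝ) i : (Fin n → ℝ) →L[ℝ] ℝ)) x := by
    rw [h4]; exact h1
  rw [h6.fderiv]
  simp only [add_apply, smul_apply, sum_apply,
    ContinuousLinearMap.proj_apply, Pi.single_apply, smul_eq_mul, mul_ite, mul_one, mul_zero,
    Finset.sum_ite_eq', Finset.mem_univ, if_true, psi]
  split_ifs with h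
  · field_simp
    ring
  · field_simp
    ring

theorem rnd_inv {n : ℕ} (x : Fin n → ℝ) :
    (rnd x)⁻¹ = (S x ^ 2 / 16) • (1 : Matrix (Fin n) (Fin n) ℝ) := by
  have h0 : S x ≠ 0 := (S_pos x).ne'
  apply Matrix.inv_eq_right_inv
  rw [rnd, Matrix.smul_mul, Matrix.mul_smul, mul_one, smul_smul]
  rw [show 16 / S x ^ 2 * (S x ^ 2 / 16) = 1 by field_simp]
  rw [one_smul]

/-- Kronecker delta -/
def dl {n : ℕ} (i j : Fin n) : ℝ := if i = j then 1 else 0

theorem Gam_rnd {n : ℕ} (k i j : Fin n) :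
    Gam (rnd (n := n)) k i j = fun x => dl j k * psi i x + dl i k * psi j x - dl i j * psi k x := by
  funext x
  have h0 : S x ≠ 0 := (S_pos x).ne'
  have key : ∀ a b c : Fin n, pd a (fun y => rnd y b c) x = dl b c * (-(64 * x a) / S x ^ 3) := by
    intro a b c
    by_cases h : b = c
    · subst h
      have : (fun y : Fin n → ℝ => rnd y b b) = fun y => 16 / S y ^ 2 := by
        funext y; simp [rnd]
      rw [this, pd_fac]
      simp [dl]
      ring
    · have : (fun y : Fin n → ℝ => rnd y b c) = fun _ => 0 := by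
        funext y; simp [rnd, Matrix.one_apply, h]
      rw [this]
      simp [dl, h, pd]
  unfold Gam
  simp only [key, rnd_inv]
  have h3 : ∀ l, ((S x ^ 2 / 16) • (1 : Matrix (Fin n) (Fin n) ℝ)) k l =
      S x ^ 2 / 16 * (if k = l then 1 else 0) := by
    intro l; simp [Matrix.one_apply]
  simp only [h3, mul_ite, mul_one, mul_zero, ite_mul, zero_mul, Finset.sum_ite_eq, Finset.mem_univ,
    if_true]
  unfold psi dl
  have hc : (if i = j then (1 : ℝ) else 0) = if i = j then 1 else 0 := rfl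
  field_simp
  ring

theorem sum_dl {n : ℕ} (i : Fin n) (f : Fin n → ℝ) : ∑ k, dl k i * f k = f i := by
  simp [dl]

theorem sum_dl' {n : ℕ} (i : Fin n) (f : Fin n → ℝ) : ∑ k, dl i k * f k = f i := by
  simp [dl]

theorem dl_comm {n : ℕ} (i j : Fin n) : dl i j = dl j i := by
  simp [dl, eq_comm]

theorem sum_dl_dl {n : ℕ} : ∑ k : Fin n, dl k k = n := by
  simp [dl]

theorem sum_psi_sq {n : ℕ} (x : Fin n → ℝ) :
    ∑ k, psi k x * psi k x = 4 / S x - 16 / S x ^ 2 := by
  have h0 : S x ≠ 0 := (S_pos x).ne'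
  have h1 : ∀ k, psi k x * psi k x = (4 / S x ^ 2) * x k ^ 2 := by
    intro k; unfold psi; field_simp; ring
  simp only [h1]
  rw [← Finset.mul_sum]
  have h2 : ∑ k, x k ^ 2 = S x - 4 := by unfold S; ring
  rw [h2]
  field_simp
  ring

theorem diff_psi {n : ℕ} (i : Fin n) (x : Fin n → ℝ) : DifferentiableAt ℝ (psi i) x := by
  have h4 : psi i = fun y : Fin n → ℝ => -(2 * y i) * (S y)⁻¹ := by
    funext y; rw [psi, div_eq_mul_inv]
  rw [h4]
  have h1 : DifferentiableAt ℝ (fun y : Fin n → ℝ => -(2 * y i)) x := by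
    have := (hasFDerivAt_coord i x).differentiableAt
    fun_prop
  exact h1.mul ((diff_S x).inv (S_pos x).ne')

theorem pd_Gam {n : ℕ} (a k i j : Fin n) (x : Fin n → ℝ) :
    pd a (Gam (rnd (n := n)) k i j) x =
      dl j k * (-(2 * dl i a) / S x + psi i x * psi a x)
      + dl i k * (-(2 * dl j a) / S x + psi j x * psi a x)
      - dl i j * (-(2 * dl k a) / S x + psi k x * psi a x) := by
  have h1 := pd_psi i a x
  have h2 := pd_psi j a x
  have h3 := pd_psi k a x
  unfold pd at h1 h2 h3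
  rw [Gam_rnd]
  unfold pd
  have d1 := (diff_psi i x)
  have d2 := (diff_psi j x)
  have d3 := (diff_psi k x)
  have e1 := (((d1.hasFDerivAt.const_mul (dl j k)).add (d2.hasFDerivAt.const_mul (dl i k))).sub
    (d3.hasFDerivAt.const_mul (dl i j))).fderiv
  have e2 : fderiv ℝ (fun x => dl j k * psi i x + dl i k * psi j x - dl i j * psi k x) x =
    dl j k • fderiv ℝ (psi i) x + dl i k • fderiv ℝ (psi j) x - dl i j • fderiv ℝ (psi k) x := e1
  rw [e2]
  simp only [sub_apply, add_apply, smul_apply, smul_eq_mul, h1, h2, h3, dl]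

theorem sum4 {n : ℕ} (x : Fin n → ℝ) (i j : Fin n) :
    ∑ k, ∑ l, (dl l k * psi j x + dl j k * psi l x - dl j l * psi k x) *
      (dl k l * psi i x + dl i l * psi k x - dl i k * psi l x) =
    (n + 2) * (psi i x * psi j x) - 2 * dl i j * ∑ k, psi k x * psi k x := by
  have h1 : ∀ k, ∑ l, (dl l k * psi j x + dl j k * psi l x - dl j l * psi k x) *
      (dl k l * psi i x + dl i l * psi k x - dl i k * psi l x) =
      psi j x * psi i x + dl i k * (psi j x * psi k x) - dl i k * (psi j x * psi k x)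
      + dl j k * (psi k x * psi i x) + dl j k * (psi i x * psi k x)
      - dl j k * (dl i k * ∑ l, psi l x * psi l x)
      - dl j k * (psi k x * psi i x) - dl i j * (psi k x * psi k x) +
      dl i k * (psi k x * psi j x) := by
    intro k
    have e1 : ∀ l, (dl l k * psi j x + dl j k * psi l x - dl j l * psi k x) *
      (dl k l * psi i x + dl i l * psi k x - dl i k * psi l x) =
      dl k l * (dl l k * (psi j x * psi i x)) + dl i l * (dl l k * (psi j x * psi k x))
      - dl k l * (dl l k * (dl i k * psi j x * psi l x) / 1) +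
      dl k l * (dl j k * (psi l x * psi i x)) + dl i l * (dl j k * (psi l x * psi k x)) -
      dl j k * dl i k * (psi l x * psi l x)
      - dl j l * (dl k l * (psi k x * psi i x)) - dl i l * (dl j l * (psi k x * psi k x))
      + dl j l * (dl i k * (psi k x * psi l x)) := by
      intro l
      by_cases hkl : k = l
      · subst hkl
        have h1 : dl k k = (1 : ℝ) := by simp [dl]
        rw [h1]; ring
      · have hlk : ¬ l = k := fun h => hkl h.symm
        have h1 : dl k l = (0 : ℝ) := by simp [dl, hkl]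
        have h2 : dl l k = (0 : ℝ) := by simp [dl, hlk]
        rw [h1, h2]; ring
    simp only [e1, Finset.sum_add_distrib, Finset.sum_sub_distrib, sum_dl', ← Finset.mul_sum]
    simp only [dl_comm k j, dl_comm j i]
    have : dl k k = (1 : ℝ) := by simp [dl]
    rw [this]
    ring
  simp only [h1, Finset.sum_add_distrib, Finset.sum_sub_distrib, sum_dl', ← Finset.mul_sum]
  simp only [Finset.sum_const, Finset.card_univ, Fintype.card_fin, nsmul_eq_mul]
  rw [← dl_comm j i]
  ring

/-- The round metric has Ricci curvature `(n - 1)` times the metric. -/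
theorem Ric_rnd {n : ℕ} (x : Fin n → ℝ) (i j : Fin n) :
    Ric (rnd (n := n)) x i j = ((n : ℝ) - 1) * (16 / S x ^ 2) * dl i j := by
  have h0 : S x ≠ 0 := (S_pos x).ne'
  have e1 : ∑ k, pd k (Gam (rnd (n := n)) k i j) x =
      2 * (-(2 * dl i j) / S x + psi i x * psi j x) -
      dl i j * (-(2 * n) / S x + ∑ k, psi k x * psi k x) := by
    have : ∀ k, pd k (Gam (rnd (n := n)) k i j) x =
      dl j k * (-(2 * dl i k) / S x + psi i x * psi k x)
      + dl i k * (-(2 * dl j k) / S x + psi j x * psi k x)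
      - (dl i j * (-2 / S x) + dl i j * (psi k x * psi k x)) := by
      intro k
      rw [pd_Gam]
      have h1 : dl k k = (1 : ℝ) := by simp [dl]
      rw [h1]
      ring
    simp only [this, Finset.sum_add_distrib, Finset.sum_sub_distrib, sum_dl', ← Finset.mul_sum,
      Finset.sum_const, Finset.card_univ, Fintype.card_fin, nsmul_eq_mul]
    rw [dl_comm j i]
    ring
  have e2 : ∑ k, pd j (Gam (rnd (n := n)) k i k) x =
      n * (-(2 * dl i j) / S x + psi i x * psi j x) := by
    have : ∀ k, pd j (Gam (rnd (n := n)) k i k) x =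
      (-(2 * dl i j) / S x + psi i x * psi j x) := by
      intro k
      rw [pd_Gam]
      have : dl k k = (1 : ℝ) := by simp [dl]
      rw [this]
      ring
    simp only [this, Finset.sum_const, Finset.card_univ, Fintype.card_fin, nsmul_eq_mul]
  have e3 : ∑ k, ∑ l, (Gam (rnd (n := n)) k k l x * Gam rnd l i j x) =
      n * (2 * (psi i x * psi j x) - dl i j * ∑ k, psi k x * psi k x) := by
    have : ∀ k l, Gam (rnd (n := n)) k k l x * Gam rnd l i j x =
        dl j l * (psi l x * psi i x) + dl i l * (psi l x * psi j x)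
          - dl i j * (psi l x * psi l x) := by
      intro k l
      simp only [Gam_rnd]
      have : dl k k = (1 : ℝ) := by simp [dl]
      rw [this, dl_comm l k]
      ring
    simp only [this, Finset.sum_add_distrib, Finset.sum_sub_distrib, sum_dl', ← Finset.mul_sum,
      Finset.sum_const, Finset.card_univ, Fintype.card_fin, nsmul_eq_mul]
    ring
  have e4 : ∑ k, ∑ l, (Gam (rnd (n := n)) k j l x * Gam rnd l i k x) =
      (n + 2) * (psi i x * psi j x) - 2 * dl i j * ∑ k, psi k x * psi k x := by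
    rw [← sum4]
    simp only [Gam_rnd]
  unfold Ric
  simp only [Matrix.of_apply, Finset.sum_sub_distrib, e1, e2, e3, e4, sum_psi_sq]
  field_simp
  ring

end Pool.Agent.Q142.Coh
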