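import Pool.Agent.Q142.Coh.Defs

set_option autoImplicit false

open scoped ContDiff Manifold Topology RealInnerProductSpace
open Module Metric

namespace Pool.Agent.Q142.Coh

section SphereMetric

variable {V : Type*} [NormedAddCommGroup V] [InnerProductSpace ℝ V] {n : ℕ}
  [Fact (finrank ℝ V = n + 1)]

/-- the differential of the inclusion of the unit sphere -/
noncomputable def dinc (x : sphere (0 : V) 1) : TangentSpace (𝓡 n) x →L[ℝ] V :=
  mvfderiv (𝓡 n) ((↑) : sphere (0 : V) 1 → V) x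

theorem dinc_inj (x : sphere (0 : V) 1) : Function.Injective (dinc (n := n) x) :=
  injective_mvfderiv_subtypeVal_sphere x

theorem hasMFDerivAt_inc (x : sphere (0 : V) 1) :
    HasMFDerivAt (𝓡 n) 𝓘(ℝ, V) ((↑) : sphere (0 : V) 1 → V) x (dinc x) :=
  ((contMDiff_coe_sphere (m := 1) x).mdifferentiableAt one_ne_zero).hasMFDerivAt

/-- the round metric, as a field of bilinear forms -/
noncomputable def roundForm (x : sphere (0 : V) 1) (v w : En n) : ℝ := ⟪dinc x v, dinc x w⟫

theorem roundForm_apply (x : sphere (0 : V) 1) (v w : En n) :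
    roundForm x v w = ⟪dinc x v, dinc x w⟫ := rfl

/-- the inverse of a stereographic chart, as a map to the ambient space -/
noncomputable def stF (v : sphere (0 : V) 1)
    (U : EuclideanSpace ℝ (Fin n) ≃ₗᵢ[ℝ] (ℝ ∙ (v : V))ᗮ) (y : EuclideanSpace ℝ (Fin n)) : V :=
  (‖y‖ ^ 2 + 4)⁻¹ • ((4 : ℝ) • (U y : V) + (‖y‖ ^ 2 - 4) • (v : V))

omit [Fact (finrank ℝ V = n + 1)] in
theorem hasFDerivAt_stF (v : sphere (0 : V) 1)
    (U : EuclideanSpace ℝ (Fin n) ≃ₗᵢ[ℝ] (ℝ ∙ (v : V))ᗮ) (y h : EuclideanSpace ℝ (Fin n)) :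
    fderiv ℝ (stF v U) y h =
      (-(2 * ⟪y, h⟫) / (‖y‖ ^ 2 + 4) ^ 2) • ((4 : ℝ) • (U y : V) + (‖y‖ ^ 2 - 4) • (v : V)) +
      (‖y‖ ^ 2 + 4)⁻¹ • ((4 : ℝ) • (U h : V) + (2 * ⟪y, h⟫) • (v : V)) := by
  have h0 : ‖y‖ ^ 2 + 4 ≠ 0 := by positivity
  have hn : HasFDerivAt (fun y : EuclideanSpace ℝ (Fin n) => ‖y‖ ^ 2) (2 • innerSL ℝ y) y :=
    (hasStrictFDerivAt_norm_sq y).hasFDerivAt
  have hi : HasFDerivAt (fun y : EuclideanSpace ℝ (Fin n) => (‖y‖ ^ 2 + 4)⁻¹)
      ((-((‖y‖ ^ 2 + 4) ^ 2)⁻¹) • (2 • innerSL ℝ y)) y :=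
    (hasDerivAt_inv h0).comp_hasFDerivAt y (hn.add_const 4)
  let L : EuclideanSpace ℝ (Fin n) →L[ℝ] V :=
    (ℝ ∙ (v : V))ᗮ.subtypeL.comp (U.toContinuousLinearEquiv : _ →L[ℝ] _)
  have hL : HasFDerivAt (fun y : EuclideanSpace ℝ (Fin n) => (U y : V)) L y := L.hasFDerivAt
  have hs : HasFDerivAt (fun y : EuclideanSpace ℝ (Fin n) =>
      (4 : ℝ) • (U y : V) + (‖y‖ ^ 2 - 4) • (v : V))
      ((4 : ℝ) • L + (2 • innerSL ℝ y).smulRight (v : V)) y :=
    (hL.const_smul (4 : ℝ)).add ((hn.sub_const 4).smul_const (v : V))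
  have := hi.smul hs
  have this2 : fderiv ℝ (stF v U) y = _ := this.fderiv
  rw [this2]
  simp only [add_apply, smul_apply,
    ContinuousLinearMap.smulRight_apply, innerSL_apply_apply, smul_eq_mul, nsmul_eq_mul]
  have hL' : L h = (U h : V) := rfl
  rw [hL']
  rw [add_comm]
  congr 1
  congr 1
  push_cast
  field_simp

omit [Fact (finrank ℝ V = n + 1)] in
theorem inner_fderiv_stF (v : sphere (0 : V) 1)
    (U : EuclideanSpace ℝ (Fin n) ≃ₗᵢ[ℝ] (ℝ ∙ (v : V))ᗮ) (y h k : EuclideanSpace ℝ (Fin n)) :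
    ⟪fderiv ℝ (stF v U) y h, fderiv ℝ (stF v U) y k⟫ =
      16 / (‖y‖ ^ 2 + 4) ^ 2 * ⟪h, k⟫ := by
  have h0 : ‖y‖ ^ 2 + 4 ≠ 0 := by positivity
  have hvv : ⟪(v : V), (v : V)⟫ = 1 := by
    rw [real_inner_self_eq_norm_sq]; simp
  have hUv : ∀ z : EuclideanSpace ℝ (Fin n), ⟪(U z : V), (v : V)⟫ = 0 := fun z => by
    have := (U z).2
    rw [Submodule.mem_orthogonal_singleton_iff_inner_left] at this
    exact this
  have hvU : ∀ z : EuclideanSpace ℝ (Fin n), ⟪(v : V), (U z : V)⟫ = 0 := fun z => by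
    rw [real_inner_comm]; exact hUv z
  have hUU : ∀ z w : EuclideanSpace ℝ (Fin n), ⟪(U z : V), (U w : V)⟫ = ⟪z, w⟫ := fun z w => by
    rw [← Submodule.coe_inner, U.inner_map_map]
  rw [hasFDerivAt_stF, hasFDerivAt_stF]
  simp only [inner_add_left, inner_add_right, inner_smul_left, inner_smul_right, hvv, hUv, hvU,
    hUU, RCLike.conj_to_real, real_inner_self_eq_norm_sq, real_inner_comm y h]
  field_simp
  ring

theorem stF_eq (v : sphere (0 : V) 1) :
    ∃ U : EuclideanSpace ℝ (Fin n) ≃ₗᵢ[ℝ] (ℝ ∙ (v : V))ᗮ,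
      (fun y => ((stereographic' n v).symm y : V)) = stF v U := by
  refine ⟨((OrthonormalBasis.fromOrthogonalSpanSingleton n
    (ne_zero_of_mem_unit_sphere v)).repr).symm, ?_⟩
  funext y
  have h := stereographic'_symm_apply v y
  simp only at h
  rw [h]
  unfold stF
  have : ‖(((OrthonormalBasis.fromOrthogonalSpanSingleton n
    (ne_zero_of_mem_unit_sphere v)).repr).symm y : V)‖ = ‖y‖ := by
    exact LinearIsometryEquiv.norm_map ((OrthonormalBasis.fromOrthogonalSpanSingleton n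
      (ne_zero_of_mem_unit_sphere v)).repr).symm y
  rw [this, smul_add]

theorem dinc_mfderiv_symm (e : OpenPartialHomeomorph (sphere (0 : V) 1) (EuclideanSpace ℝ (Fin n)))
    (he : e ∈ atlas (EuclideanSpace ℝ (Fin n)) (sphere (0 : V) 1))
    (y h : EuclideanSpace ℝ (Fin n)) (hy : y ∈ e.target) :
    dinc (e.symm y) (mfderiv (𝓡 n) (𝓡 n) e.symm y h) =
      fderiv ℝ (fun z => (e.symm z : V)) y h := by
  have hd : MDifferentiableAt (𝓡 n) (𝓡 n) e.symm y := by
    have h1 : ContMDiffOn (𝓡 n) (𝓡 n) 1 e.symm e.target :=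
      contMDiffOn_symm_of_mem_maximalAtlas (IsManifold.subset_maximalAtlas he)
    exact (h1.contMDiffAt (e.open_target.mem_nhds hy)).mdifferentiableAt one_ne_zero
  have h2 := (hasMFDerivAt_inc (n := n) (e.symm y)).comp y hd.hasMFDerivAt
  let L : EuclideanSpace ℝ (Fin n) →L[ℝ] V :=
    (dinc (e.symm y)).comp (mfderiv (𝓡 n) (𝓡 n) e.symm y)
  have h3 : HasFDerivAt (fun z => (e.symm z : V)) L y := h2.hasFDerivAt
  rw [h3.fderiv]
  rfl

theorem coef_round (e : OpenPartialHomeomorph (sphere (0 : V) 1) (EuclideanSpace ℝ (Fin n)))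
    (he : e ∈ atlas (EuclideanSpace ℝ (Fin n)) (sphere (0 : V) 1)) :
    coef (roundForm (V := V)) e = rnd := by
  funext y
  ext i j
  obtain ⟨v, rfl⟩ := he
  obtain ⟨U, hU⟩ := stF_eq (n := n) v
  have ht : ∀ z : EuclideanSpace ℝ (Fin n), z ∈ (stereographic' n v).target := by
    intro z; simp
  have key : ∀ h : EuclideanSpace ℝ (Fin n), dinc ((stereographic' n v).symm (WithLp.toLp 2 y))
      (mfderiv (𝓡 n) (𝓡 n) (stereographic' n v).symm (WithLp.toLp 2 y) h) =
      fderiv ℝ (stF v U) (WithLp.toLp 2 y) h := by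
    intro h
    rw [dinc_mfderiv_symm _ ⟨v, rfl⟩ _ h (ht _), hU]
  unfold coef
  rw [Matrix.of_apply, roundForm_apply]
  have k1 : dinc ((stereographic' n v).symm (WithLp.toLp 2 y)) (cv (stereographic' n v) y i) = _ :=
    key (EuclideanSpace.single i (1 : ℝ))
  have k2 : dinc ((stereographic' n v).symm (WithLp.toLp 2 y)) (cv (stereographic' n v) y j) = _ :=
    key (EuclideanSpace.single j (1 : ℝ))
  rw [k1, k2, inner_fderiv_stF, rnd]
  simp only [EuclideanSpace.norm_sq_eq, EuclideanSpace.inner_single_left, S]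
  simp [Matrix.one_apply]

theorem rnd_smooth (i j : Fin n) : ContDiff ℝ ∞ (fun y : Fin n → ℝ => rnd y i j) := by
  have h1 : (fun y : Fin n → ℝ => rnd y i j) =
      fun y => 16 / S y ^ 2 * (1 : Matrix (Fin n) (Fin n) ℝ) i j := by
    funext y; simp [rnd]
  rw [h1]
  refine ContDiff.mul ?_ contDiff_const
  refine ContDiff.div contDiff_const ?_ (fun y => (pow_pos (S_pos y) 2).ne')
  unfold S
  fun_prop

variable (V n) in
/-- The round metric on the unit sphere of `V`: the restriction of the inner product of `V`. -/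
noncomputable def roundMet : RMet n (sphere (0 : V) 1) where
  val := roundForm
  add_left := fun x u v w => by
    rw [roundForm_apply, roundForm_apply, roundForm_apply, ← inner_add_left]
    congr 1
    exact map_add (dinc x) u v
  smul_left := fun x c v w => by
    rw [roundForm_apply, roundForm_apply, ← real_inner_smul_left]
    congr 1
    exact map_smul (dinc x) c v
  symm := fun x v w => real_inner_comm _ _
  pos := fun x v hv => by
    rw [roundForm_apply]
    refine real_inner_self_pos.2 fun h => hv ?_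
    apply dinc_inj x
    rw [h]
    exact (map_zero (dinc x)).symm
  smooth := fun e he i j => by
    rw [coef_round e he]
    exact (rnd_smooth i j).contDiffOn

/-- In every chart of the atlas of the sphere the Ricci tensor of the round metric is
`n - 1` times the metric. -/
theorem ricci_round (e : OpenPartialHomeomorph (sphere (0 : V) 1) (EuclideanSpace ℝ (Fin n)))
    (he : e ∈ atlas (EuclideanSpace ℝ (Fin n)) (sphere (0 : V) 1)) (y : Fin n → ℝ) :
    Ric (coef (roundMet V n).val e) y = ((n : ℝ) - 1) • coef (roundMet V n).val e y := by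
  have : coef (roundMet V n).val e = rnd := coef_round e he
  rw [this]
  ext i j
  rw [Ric_rnd]
  simp [rnd, dl, Matrix.one_apply]

theorem posRicci_round (hn : 2 ≤ n) : PosRicci (roundMet V n) := by
  intro e he y _ v hv
  have h1 : coef (roundMet V n).val e = rnd := coef_round e he
  rw [h1]
  have h2 : ∑ i, ∑ j, Ric (rnd (n := n)) y i j * v i * v j =
      ((n : ℝ) - 1) * (16 / S y ^ 2) * ∑ i, v i ^ 2 := by
    rw [Finset.mul_sum]
    refine Finset.sum_congr rfl fun i _ => ?_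
    simp only [Ric_rnd, dl]
    rw [Finset.sum_eq_single i]
    · simp; ring
    · intro j _ hj
      simp [Ne.symm hj]
    · simp
  rw [h2]
  have h3 : 0 < ∑ i, v i ^ 2 := by
    obtain ⟨i, hi⟩ := Function.ne_iff.1 hv
    exact Finset.sum_pos' (fun _ _ => sq_nonneg _) ⟨i, Finset.mem_univ _, by
      have : v i ≠ 0 := hi
      positivity⟩
  have h4 : (0 : ℝ) < (n : ℝ) - 1 := by
    have : (2 : ℝ) ≤ n := by exact_mod_cast hn
    linarith
  have h5 := S_pos y
  positivity

theorem dinc_comp {f : sphere (0 : V) 1 → sphere (0 : V) 1} {F : V →L[ℝ] V}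
    (hF : ∀ x, (f x : V) = F x) (x : sphere (0 : V) 1)
    (hf : MDifferentiableAt (𝓡 n) (𝓡 n) f x) (v : TangentSpace (𝓡 n) x) :
    dinc (f x) (mfderiv (𝓡 n) (𝓡 n) f x v) = F (dinc x v) := by
  have h1 := (hasMFDerivAt_inc (n := n) (f x)).comp x hf.hasMFDerivAt
  have h2 : HasMFDerivAt (𝓡 n) 𝓘(ℝ, V) (fun z : sphere (0 : V) 1 => F (z : V)) x
      (F.comp (dinc (n := n) x)) :=
    (F.hasMFDerivAt (x := (x : V))).comp x (hasMFDerivAt_inc x)
  have h3 : ((↑) : sphere (0 : V) 1 → V) ∘ f = fun z : sphere (0 : V) 1 => F (z : V) := by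
    funext z; exact hF z
  rw [h3] at h1
  have h4 := hasMFDerivAt_unique h1 h2
  exact congrArg (fun L : TangentSpace (𝓡 n) x →L[ℝ] V => L v) h4

end SphereMetric

end Pool.Agent.Q142.Coh
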