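import Pool.Agent.Q142.Coh.Orb

set_option autoImplicit false

open scoped ContDiff Manifold Topology RealInnerProductSpace Quaternion
open Module Metric

namespace Pool.Agent.Q142.Coh

/-! ### transitivity on unit imaginary quaternions -/

theorem imag_sq (u : ℍ) (hu : u.re = 0) (hn : ‖u‖ = 1) : u * u = -1 := by
  have h1 : star u = -u := by ext <;> simp [hu]
  have h2 : u * star u = 1 := by
    rw [Quaternion.self_mul_star, Quaternion.normSq_eq_norm_mul_self, hn]
    simp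
  rw [h1, mul_neg] at h2
  rw [← h2, neg_neg]

theorem conj_step (u w : ℍ) (hu : u.re = 0) (hun : ‖u‖ = 1) (hw : w.re = 0) (hwn : ‖w‖ = 1)
    (h : w ≠ -u) : ∃ q : GQ, (q : ℍ) * u * star (q : ℍ) = w := by
  have hu2 := imag_sq u hu hun
  have hw2 := imag_sq w hw hwn
  set q₀ : ℍ := 1 - w * u with hq0
  have hq : q₀ ≠ 0 := by
    intro h0
    apply h
    have h1 : w * u = 1 := (sub_eq_zero.1 h0).symm
    have h2 : w * (u * u) = u := by rw [← mul_assoc, h1, one_mul]
    rw [hu2, mul_neg, mul_one] at h2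
    rw [← h2, neg_neg]
  have hcomm : q₀ * u = w * q₀ := by
    rw [hq0, sub_mul, mul_sub, one_mul, mul_one, mul_assoc, hu2, ← mul_assoc w w u, hw2]
    simp [add_comm]
  have hnq : ‖q₀‖ ≠ 0 := norm_ne_zero_iff.2 hq
  let q : GQ := ⟨(‖q₀‖⁻¹ : ℝ) • q₀, by
    rw [mem_sphere_zero_iff_norm, norm_smul, norm_inv, norm_norm, inv_mul_cancel₀ hnq]⟩
  refine ⟨q, ?_⟩
  have h3 : (q : ℍ) * u = w * (q : ℍ) := by
    change ((‖q₀‖⁻¹ : ℝ) • q₀) * u = w * ((‖q₀‖⁻¹ : ℝ) • q₀)
    rw [Algebra.smul_mul_assoc, Algebra.mul_smul_comm, hcomm]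
  rw [h3, mul_assoc, GQ_mul_star, mul_one]

/-- the unit `i` -/
def qI : ℍ := ⟨0, 1, 0, 0⟩

/-- the unit `j` -/
def qJ : ℍ := ⟨0, 0, 1, 0⟩

theorem norm_qI : ‖qI‖ = 1 := by
  rw [← pow_left_inj₀ (norm_nonneg _) zero_le_one two_ne_zero, sq,
    ← Quaternion.normSq_eq_norm_mul_self, Quaternion.normSq_def']
  have h1 : qI.re = 0 := rfl
  have h2 : qI.imI = 1 := rfl
  have h3 : qI.imJ = 0 := rfl
  have h4 : qI.imK = 0 := rfl
  rw [h1, h2, h3, h4]
  norm_num

theorem norm_qJ : ‖qJ‖ = 1 := by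
  rw [← pow_left_inj₀ (norm_nonneg _) zero_le_one two_ne_zero, sq,
    ← Quaternion.normSq_eq_norm_mul_self, Quaternion.normSq_def']
  have h1 : qJ.re = 0 := rfl
  have h2 : qJ.imI = 0 := rfl
  have h3 : qJ.imJ = 1 := rfl
  have h4 : qJ.imK = 0 := rfl
  rw [h1, h2, h3, h4]
  norm_num

theorem conj_trans (u w : ℍ) (hu : u.re = 0) (hun : ‖u‖ = 1) (hw : w.re = 0) (hwn : ‖w‖ = 1) :
    ∃ q : GQ, (q : ℍ) * u * star (q : ℍ) = w := by
  by_cases h : w = -u
  · obtain ⟨p, hp, hpn, hp1, hp2⟩ : ∃ p : ℍ, p.re = 0 ∧ ‖p‖ = 1 ∧ p ≠ -u ∧ p ≠ u := by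
      by_cases hi : u.imI = 0
      · refine ⟨qI, rfl, norm_qI, ?_, ?_⟩
        · intro h1
          have h2 : qI.imI = (-u).imI := by rw [h1]
          rw [Quaternion.imI_neg, hi, neg_zero] at h2
          exact one_ne_zero h2
        · intro h1
          have h2 : qI.imI = u.imI := by rw [h1]
          rw [hi] at h2
          exact one_ne_zero h2
      · refine ⟨qJ, rfl, norm_qJ, ?_, ?_⟩
        · intro h1
          have h2 : qJ.imI = (-u).imI := by rw [h1]
          rw [Quaternion.imI_neg] at h2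
          exact hi (neg_eq_zero.1 h2.symm)
        · intro h1
          have h2 : qJ.imI = u.imI := by rw [h1]
          exact hi h2.symm
    obtain ⟨q1, hq1⟩ := conj_step u p hu hun hp hpn hp1
    obtain ⟨q2, hq2⟩ := conj_step p w hp hpn hw hwn (by
      rw [h]
      intro h2
      exact hp2 (neg_injective h2).symm)
    refine ⟨q2 * q1, ?_⟩
    have h1 : ((q2 * q1 : GQ) : ℍ) = (q2 : ℍ) * (q1 : ℍ) := rfl
    rw [h1, star_mul, ← hq2, ← hq1]
    simp only [mul_assoc]
  · exact conj_step u w hu hun hw hwn h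

theorem norm_co_zero {k : ℕ} (x : MQ k) (hx : ¬ Reg x) : ‖co x 0‖ = 1 := by
  have hx0 : ∀ i, i ≠ 0 → co x i = 0 := by
    intro i hi
    by_contra h
    exact hx ⟨i, hi, h⟩
  have h1 : ‖((x : VQ k) : EQ k)‖ = 1 := norm_eq_of_mem_sphere x
  rw [PiLp.norm_eq_of_L2, Finset.sum_eq_single 0] at h1
  · rw [Real.sqrt_sq (norm_nonneg _)] at h1
    exact h1
  · intro i _ hi
    have : ((x : VQ k) : EQ k) i = 0 := hx0 i hi
    rw [this]; simp
  · simp

theorem sing_orbit {k : ℕ} (x y : MQ k) (hx : ¬ Reg x) (hy : ¬ Reg y) :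
    y ∈ MulAction.orbit GQ x := by
  obtain ⟨q, hq⟩ := conj_trans (co x 0) (co y 0) (re_co_zero x) (norm_co_zero x hx)
    (re_co_zero y) (norm_co_zero y hy)
  refine ⟨q, ?_⟩
  change q • x = y
  refine ext_co fun i => ?_
  by_cases hi : i = 0
  · subst hi; rw [co_smul_zero, hq]
  · rw [co_smul_ne _ _ i hi]
    have h1 : co x i = 0 := by
      by_contra h; exact hx ⟨i, hi, h⟩
    have h2 : co y i = 0 := by
      by_contra h; exact hy ⟨i, hi, h⟩
    rw [h1, h2, mul_zero]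

theorem reg_smul {k : ℕ} (a : GQ) (x : MQ k) : Reg (a • x) ↔ Reg x := by
  constructor
  · rintro ⟨i, hi, h⟩
    refine ⟨i, hi, fun h1 => h ?_⟩
    rw [co_smul_ne _ _ i hi, h1, mul_zero]
  · rintro ⟨i, hi, h⟩
    refine ⟨i, hi, fun h1 => h ?_⟩
    rw [co_smul_ne _ _ i hi] at h1
    rcases mul_eq_zero.1 h1 with h2 | h2
    · exact absurd h2 (ne_zero_of_mem_unit_sphere a)
    · exact h2

theorem stab_reg {k : ℕ} (x : MQ k) (hx : Reg x) : MulAction.stabilizer GQ x = ⊥ := by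
  obtain ⟨i, hi, h⟩ := hx
  rw [eq_bot_iff]
  intro a ha
  rw [MulAction.mem_stabilizer_iff] at ha
  have h1 := co_smul_ne a x i hi
  rw [ha] at h1
  have h2 : ((a : ℍ) - 1) * co x i = 0 := by
    rw [sub_mul, ← h1, one_mul, sub_self]
  rcases mul_eq_zero.1 h2 with h3 | h3
  · rw [Subgroup.mem_bot]
    exact Subtype.ext (sub_eq_zero.1 h3)
  · exact absurd h3 h

theorem stab_sing {k : ℕ} (x : MQ k) (hx : ¬ Reg x) : MulAction.stabilizer GQ x ≠ ⊥ := by
  intro h
  let a : GQ := ⟨co x 0, by rw [mem_sphere_zero_iff_norm]; exact norm_co_zero x hx⟩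
  have ha : a ∈ MulAction.stabilizer GQ x := by
    rw [MulAction.mem_stabilizer_iff]
    refine ext_co fun i => ?_
    by_cases hi : i = 0
    · subst hi
      rw [co_smul_zero, mul_assoc]
      have : co x 0 = (a : ℍ) := rfl
      rw [this, GQ_mul_star, mul_one]
    · rw [co_smul_ne _ _ i hi]
      have h1 : co x i = 0 := by
        by_contra h; exact hx ⟨i, hi, h⟩
      rw [h1, mul_zero]
  rw [h, Subgroup.mem_bot] at ha
  have h1 : co x 0 = 1 := congrArg Subtype.val ha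
  have h2 := re_co_zero x
  rw [h1] at h2
  simp at h2

theorem cont_co {k : ℕ} (i : Fin (k + 1)) : Continuous (fun x : MQ k => co x i) :=
  (cl k i).continuous.comp continuous_subtype_val

theorem isOpen_reg (k : ℕ) : IsOpen {x : MQ k | Reg x} := by
  have : {x : MQ k | Reg x} = ⋃ i : {i : Fin (k + 1) // i ≠ 0}, {x : MQ k | co x i ≠ 0} := by
    ext x
    simp [Reg]
  rw [this]
  exact isOpen_iUnion fun i => isOpen_ne.preimage (cont_co _)

/-- the last basis vector -/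
noncomputable def lastV (k : ℕ) (hk : 1 ≤ k) : VQ k :=
  ⟨WithLp.toLp 2 (Pi.single (Fin.last k) 1), by
    rw [mem_VQ]
    have : (0 : Fin (k + 1)) ≠ Fin.last k := by
      intro h
      have := congrArg Fin.val h
      simp at this
      omega
    simp [this]⟩

theorem norm_lastV (k : ℕ) (hk : 1 ≤ k) : ‖lastV k hk‖ = 1 := by
  change ‖(WithLp.toLp 2 (Pi.single (Fin.last k) (1 : ℍ)) : EQ k)‖ = 1
  rw [PiLp.norm_eq_of_L2, Finset.sum_eq_single (Fin.last k)]
  · simp
  · intro i _ hi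
    simp [hi]
  · simp

theorem last_ne_zero (k : ℕ) (hk : 1 ≤ k) : Fin.last k ≠ 0 := by
  intro h
  have := congrArg Fin.val h
  simp at this
  omega

theorem inner_lastV {k : ℕ} (hk : 1 ≤ k) (x : MQ k) (hx : ¬ Reg x) :
    ⟪(x : VQ k), lastV k hk⟫ = 0 := by
  change ⟪((x : VQ k) : EQ k), (WithLp.toLp 2 (Pi.single (Fin.last k) (1 : ℍ)) : EQ k)⟫ = 0
  rw [PiLp.inner_apply, Finset.sum_eq_zero]
  intro i _
  by_cases hi : i = Fin.last k
  · subst hi
    have h1 : co x (Fin.last k) = 0 := by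
      by_contra h; exact hx ⟨Fin.last k, last_ne_zero k hk, h⟩
    have h2 : ((x : VQ k) : EQ k) (Fin.last k) = 0 := h1
    rw [h2, inner_zero_left]
  · simp [hi]

theorem norm_comb {W : Type*} [NormedAddCommGroup W] [InnerProductSpace ℝ W] (y w : W)
    (hy : ‖y‖ = 1) (hw : ‖w‖ = 1) (h : ⟪y, w⟫ = 0) (t : ℝ) :
    ‖Real.cos t • y + Real.sin t • w‖ = 1 := by
  rw [← pow_left_inj₀ (norm_nonneg _) zero_le_one two_ne_zero, norm_add_sq_real,
    real_inner_smul_left, real_inner_smul_right, h, norm_smul, norm_smul, hy, hw]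
  simp

/-- a path starting at a singular point -/
noncomputable def path {k : ℕ} (hk : 1 ≤ k) (x : MQ k) (hx : ¬ Reg x) (t : ℝ) : MQ k :=
  ⟨Real.cos t • (x : VQ k) + Real.sin t • lastV k hk, by
    rw [mem_sphere_zero_iff_norm]
    exact norm_comb _ _ (norm_eq_of_mem_sphere x) (norm_lastV k hk) (inner_lastV hk x hx) t⟩

theorem path_zero {k : ℕ} (hk : 1 ≤ k) (x : MQ k) (hx : ¬ Reg x) : path hk x hx 0 = x := by
  refine Subtype.ext ?_
  simp [path]

theorem path_cont {k : ℕ} (hk : 1 ≤ k) (x : MQ k) (hx : ¬ Reg x) :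
    Continuous (path hk x hx) := by
  refine Continuous.subtype_mk ?_ _
  exact (Real.continuous_cos.smul continuous_const).add
    (Real.continuous_sin.smul continuous_const)

theorem path_reg {k : ℕ} (hk : 1 ≤ k) (x : MQ k) (hx : ¬ Reg x) (t : ℝ) (ht : Real.sin t ≠ 0) :
    Reg (path hk x hx t) := by
  refine ⟨Fin.last k, last_ne_zero k hk, ?_⟩
  have h1 : co x (Fin.last k) = 0 := by
    by_contra h; exact hx ⟨Fin.last k, last_ne_zero k hk, h⟩
  have h2 : co (path hk x hx t) (Fin.last k) =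
      Real.cos t • co x (Fin.last k) + Real.sin t • (1 : ℍ) := by
    rw [co_eq, path, map_add, map_smul, map_smul]
    congr 2
    change (Pi.single (Fin.last k) (1 : ℍ) : Fin (k + 1) → ℍ) (Fin.last k) = 1
    simp
  rw [h2, h1, smul_zero, zero_add]
  exact smul_ne_zero ht one_ne_zero

theorem dense_reg {k : ℕ} (hk : 1 ≤ k) : Dense {x : MQ k | Reg x} := by
  intro x
  by_cases hx : Reg x
  · exact subset_closure hx
  · have h1 : Filter.Tendsto (path hk x hx) (𝓝[>] 0) (𝓝 x) := by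
      have h3 := (path_cont hk x hx).tendsto 0
      rw [path_zero] at h3
      exact h3.mono_left nhdsWithin_le_nhds
    refine mem_closure_of_tendsto h1 ?_
    have h2 : Set.Ioo (0 : ℝ) Real.pi ∈ 𝓝[>] (0 : ℝ) := Ioo_mem_nhdsGT Real.pi_pos
    filter_upwards [h2] with t ht
    exact path_reg hk x hx t (Real.sin_pos_of_pos_of_lt_pi ht.1 ht.2).ne'

end Pool.Agent.Q142.Coh
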